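import Mathlib

set_option autoImplicit false

namespace Pool.Agent.EMP623.Euler

/-- A permutation of a finite type without points of period 1 or 2 has at most a third as many
orbits as there are points. -/
theorem three_mul_orbits_le {α : Type*} [Finite α] (φ : Equiv.Perm α)
    (h1 : ∀ x, φ x ≠ x) (h2 : ∀ x, φ (φ x) ≠ x) :
    3 * Nat.card (MulAction.orbitRel.Quotient (Subgroup.zpowers φ) α) ≤ Nat.card α := by
  classical
  have : Fintype α := Fintype.ofFinite α
  have : Fintype (MulAction.orbitRel.Quotient (Subgroup.zpowers φ) α) := Fintype.ofFinite _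
  rw [Nat.card_congr (MulAction.selfEquivSigmaOrbits' (Subgroup.zpowers φ) α), Nat.card_sigma]
  rw [Nat.card_eq_fintype_card, mul_comm, ← smul_eq_mul, ← Finset.card_univ]
  refine Finset.card_nsmul_le_sum _ _ _ ?_
  intro ω _
  induction ω using Quotient.inductionOn' with
  | h x =>
    have hm : ∀ n : ℕ, (φ ^ n) x ∈ (MulAction.orbitRel.Quotient.orbit
        (Quotient.mk'' x : MulAction.orbitRel.Quotient (Subgroup.zpowers φ) α)) := by
      intro n
      rw [MulAction.orbitRel.Quotient.orbit_mk]
      exact ⟨⟨φ ^ n, Subgroup.npow_mem_zpowers φ n⟩, rfl⟩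
    let f : Fin 3 → (MulAction.orbitRel.Quotient.orbit
        (Quotient.mk'' x : MulAction.orbitRel.Quotient (Subgroup.zpowers φ) α)) :=
      fun i => ⟨(φ ^ (i : ℕ)) x, hm i⟩
    have hf : Function.Injective f := by
      intro i j hij
      have h : (φ ^ (i : ℕ)) x = (φ ^ (j : ℕ)) x := congrArg Subtype.val hij
      have e0 : (φ ^ (0 : ℕ)) x = x := rfl
      have e1 : (φ ^ (1 : ℕ)) x = φ x := by rw [pow_one]
      have e2 : (φ ^ (2 : ℕ)) x = φ (φ x) := by rw [pow_two]; rfl
      have a1 := h1 x
      have a2 := h2 x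
      have a3 := h1 (φ x)
      have b1 : (φ ^ (0 : ℕ)) x ≠ (φ ^ (1 : ℕ)) x := by rw [e0, e1]; exact fun h => a1 h.symm
      have b2 : (φ ^ (0 : ℕ)) x ≠ (φ ^ (2 : ℕ)) x := by rw [e0, e2]; exact fun h => a2 h.symm
      have b3 : (φ ^ (1 : ℕ)) x ≠ (φ ^ (2 : ℕ)) x := by rw [e1, e2]; exact fun h => a3 h.symm
      fin_cases i <;> fin_cases j
      · rfl
      · exact absurd h b1
      · exact absurd h b2
      · exact absurd h.symm b1
      · rfl
      · exact absurd h b3
      · exact absurd h.symm b2
      · exact absurd h.symm b3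
      · rfl
    have hc := Nat.card_le_card_of_injective f hf
    rwa [Nat.card_eq_fintype_card, Fintype.card_fin] at hc

variable {V : Type} [Fintype V] (G : SimpleGraph V)

/-- In a connected graph with at least three vertices every face of a rotation system has at
least three sides: `3 F ≤ 2 E`. -/
theorem three_faces_le (hG : G.Connected) (hV : 3 ≤ Nat.card V) (σ : Equiv.Perm G.Dart)
    (hσ : ∀ d, (σ d).fst = d.fst)
    (ht : ∀ d d' : G.Dart, d.fst = d'.fst → ∃ n : ℕ, (σ ^ n) d = d') :
    3 * Nat.card (MulAction.orbitRel.Quotient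
          (Subgroup.zpowers (σ * Equiv.mk (fun d : G.Dart => d.symm) (fun d : G.Dart => d.symm)
            (fun d => d.symm_symm) (fun d => d.symm_symm))) G.Dart) ≤
      2 * Nat.card G.edgeSet := by
  classical
  have hd : Nat.card G.Dart = 2 * Nat.card G.edgeSet := by
    have : DecidableRel G.Adj := Classical.decRel _
    rw [Nat.card_eq_fintype_card, SimpleGraph.dart_card_eq_twice_card_edges,
      Nat.card_eq_fintype_card, SimpleGraph.edgeFinset_card]
  rw [← hd]
  refine three_mul_orbits_le _ ?_ ?_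
  · intro d h
    have h' : σ d.symm = d := h
    have e := hσ d.symm
    rw [h'] at e
    exact d.adj.ne e
  · intro d h
    have h' : σ (σ d.symm).symm = d := h
    have e1 : (σ d.symm).fst = d.snd := hσ d.symm
    have e2 : (σ d.symm).snd = d.fst := by
      have := hσ (σ d.symm).symm
      rw [h'] at this
      exact this.symm
    have e3 : σ d.symm = d.symm := by
      refine SimpleGraph.Dart.ext _ _ (Prod.ext ?_ ?_)
      · exact e1
      · exact e2
    have e4 : σ d = d := by
      rw [e3, SimpleGraph.Dart.symm_symm] at h'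
      exact h'
    have key : ∀ a : G.Dart, σ a = a → ∀ w, G.Adj a.fst w → w = a.snd := by
      intro a ha w hw
      obtain ⟨n, hn⟩ := ht a ⟨(a.fst, w), hw⟩ rfl
      have hpow : (σ ^ n) a = a := by
        induction n with
        | zero => rfl
        | succ k ih =>
          clear hn
          have : ∀ k : ℕ, (σ ^ k) a = a := by
            intro k
            induction k with
            | zero => rfl
            | succ k ih => rw [pow_succ, Equiv.Perm.mul_apply, ha, ih]
          exact this _
      rw [hpow] at hn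
      rw [hn]
    have hS : ∀ u v : V, G.Walk u v → (u = d.fst ∨ u = d.snd) → (v = d.fst ∨ v = d.snd) := by
      intro u v p
      induction p with
      | nil => exact fun h => h
      | cons hadj _ ih =>
        intro hu
        apply ih
        rcases hu with rfl | rfl
        · right
          exact key d e4 _ hadj
        · left
          exact key d.symm e3 _ hadj
    have hcov : ∀ v : V, v ∈ ({d.fst, d.snd} : Finset V) := by
      intro v
      obtain ⟨p⟩ := hG.preconnected d.fst v
      have := hS _ _ p (Or.inl rfl)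
      simpa using this
    have hle : Nat.card V ≤ 2 := by
      rw [Nat.card_eq_fintype_card, ← Finset.card_univ]
      have : (Finset.univ : Finset V) ⊆ {d.fst, d.snd} := fun v _ => hcov v
      exact (Finset.card_le_card this).trans Finset.card_le_two
    omega

/-- If `5 k ≤ |V| + 10` and `21 |V| ≤ 5 |E| + 60`, then `k ≤ g + 3`, with `g` from Euler's
formula `2 g = 2 - |V| + |E| - F`. -/
theorem bound_of_edges (hG : G.Connected) (hV : 3 ≤ Nat.card V) (σ : Equiv.Perm G.Dart)
    (hσ : ∀ d, (σ d).fst = d.fst)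
    (ht : ∀ d d' : G.Dart, d.fst = d'.fst → ∃ n : ℕ, (σ ^ n) d = d')
    (hE : 21 * Nat.card V ≤ 5 * Nat.card G.edgeSet + 60)
    (k : ℕ) (hk : 5 * k ≤ Nat.card V + 10) :
    2 * (k : ℤ) ≤ 8 - (Nat.card V : ℤ) + (Nat.card G.edgeSet : ℤ)
      - (Nat.card (MulAction.orbitRel.Quotient
          (Subgroup.zpowers (σ * Equiv.mk (fun d : G.Dart => d.symm) (fun d : G.Dart => d.symm)
            (fun d => d.symm_symm) (fun d => d.symm_symm))) G.Dart) : ℤ) := by
  have h := three_faces_le G hG hV σ hσ ht
  omega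

/-- Orbits of length at least four. -/
theorem four_mul_orbits_le {α : Type*} [Finite α] (φ : Equiv.Perm α)
    (h1 : ∀ x, φ x ≠ x) (h2 : ∀ x, φ (φ x) ≠ x) (h3 : ∀ x, φ (φ (φ x)) ≠ x) :
    4 * Nat.card (MulAction.orbitRel.Quotient (Subgroup.zpowers φ) α) ≤ Nat.card α := by
  classical
  have : Fintype α := Fintype.ofFinite α
  have : Fintype (MulAction.orbitRel.Quotient (Subgroup.zpowers φ) α) := Fintype.ofFinite _
  rw [Nat.card_congr (MulAction.selfEquivSigmaOrbits' (Subgroup.zpowers φ) α), Nat.card_sigma]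
  rw [Nat.card_eq_fintype_card, mul_comm, ← smul_eq_mul, ← Finset.card_univ]
  refine Finset.card_nsmul_le_sum _ _ _ ?_
  intro ω _
  induction ω using Quotient.inductionOn' with
  | h x =>
    have hm : ∀ n : ℕ, (φ ^ n) x ∈ (MulAction.orbitRel.Quotient.orbit
        (Quotient.mk'' x : MulAction.orbitRel.Quotient (Subgroup.zpowers φ) α)) := by
      intro n
      rw [MulAction.orbitRel.Quotient.orbit_mk]
      exact ⟨⟨φ ^ n, Subgroup.npow_mem_zpowers φ n⟩, rfl⟩
    let f : Fin 4 → (MulAction.orbitRel.Quotient.orbit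
        (Quotient.mk'' x : MulAction.orbitRel.Quotient (Subgroup.zpowers φ) α)) :=
      fun i => ⟨(φ ^ (i : ℕ)) x, hm i⟩
    have hf : Function.Injective f := by
      intro i j hij
      have h : (φ ^ (i : ℕ)) x = (φ ^ (j : ℕ)) x := congrArg Subtype.val hij
      have key : ∀ a b : ℕ, a < b → b < 4 → (φ ^ a) x ≠ (φ ^ b) x := by
        intro a b hab hb he
        obtain ⟨c, rfl⟩ := Nat.exists_eq_add_of_lt hab
        have e : (φ ^ (a + c + 1)) x = (φ ^ a) ((φ ^ (c + 1)) x) := by
          rw [add_assoc, pow_add, Equiv.Perm.mul_apply]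
        rw [e] at he
        have he' := (φ ^ a).injective he
        have hc : c = 0 ∨ c = 1 ∨ c = 2 := by omega
        rcases hc with rfl | rfl | rfl
        · exact h1 x he'.symm
        · exact h2 x he'.symm
        · exact h3 x he'.symm
      rcases lt_trichotomy (i : ℕ) (j : ℕ) with hl | hl | hl
      · exact absurd h (key _ _ hl j.2)
      · exact Fin.ext hl
      · exact absurd h.symm (key _ _ hl i.2)
    have hc := Nat.card_le_card_of_injective f hf
    rwa [Nat.card_eq_fintype_card, Fintype.card_fin] at hc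

/-- In a connected graph with at least three vertices no face has two sides. -/
theorem no_digon (hG : G.Connected) (hV : 3 ≤ Nat.card V) (σ : Equiv.Perm G.Dart)
    (hσ : ∀ d, (σ d).fst = d.fst)
    (ht : ∀ d d' : G.Dart, d.fst = d'.fst → ∃ n : ℕ, (σ ^ n) d = d') (d : G.Dart) :
    σ (σ d.symm).symm ≠ d := by
  classical
  intro h'
  have e1 : (σ d.symm).fst = d.snd := hσ d.symm
  have e2 : (σ d.symm).snd = d.fst := by
    have := hσ (σ d.symm).symm
    rw [h'] at this
    exact this.symm
  have e3 : σ d.symm = d.symm := by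
    refine SimpleGraph.Dart.ext _ _ (Prod.ext ?_ ?_)
    · exact e1
    · exact e2
  have e4 : σ d = d := by
    rw [e3, SimpleGraph.Dart.symm_symm] at h'
    exact h'
  have key : ∀ a : G.Dart, σ a = a → ∀ w, G.Adj a.fst w → w = a.snd := by
    intro a ha w hw
    obtain ⟨n, hn⟩ := ht a ⟨(a.fst, w), hw⟩ rfl
    have hpow : ∀ k : ℕ, (σ ^ k) a = a := by
      intro k
      induction k with
      | zero => rfl
      | succ k ih => rw [pow_succ, Equiv.Perm.mul_apply, ha, ih]
    rw [hpow] at hn
    rw [hn]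
  have hS : ∀ u v : V, G.Walk u v → (u = d.fst ∨ u = d.snd) → (v = d.fst ∨ v = d.snd) := by
    intro u v p
    induction p with
    | nil => exact fun h => h
    | cons hadj _ ih =>
      intro hu
      apply ih
      rcases hu with rfl | rfl
      · right
        exact key d e4 _ hadj
      · left
        exact key d.symm e3 _ hadj
  have hcov : ∀ v : V, v ∈ ({d.fst, d.snd} : Finset V) := by
    intro v
    obtain ⟨p⟩ := hG.preconnected d.fst v
    have := hS _ _ p (Or.inl rfl)
    simpa using this
  have hle : Nat.card V ≤ 2 := by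
    rw [Nat.card_eq_fintype_card, ← Finset.card_univ]
    have : (Finset.univ : Finset V) ⊆ {d.fst, d.snd} := fun v _ => hcov v
    exact (Finset.card_le_card this).trans Finset.card_le_two
  omega

/-- In a connected triangle-free graph with at least three vertices every face of a rotation
system has at least four sides: `4 F ≤ 2 E`. -/
theorem four_faces_le (hG : G.Connected) (hV : 3 ≤ Nat.card V)
    (htf : ∀ a b c : V, G.Adj a b → G.Adj b c → G.Adj c a → False) (σ : Equiv.Perm G.Dart)
    (hσ : ∀ d, (σ d).fst = d.fst)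
    (ht : ∀ d d' : G.Dart, d.fst = d'.fst → ∃ n : ℕ, (σ ^ n) d = d') :
    4 * Nat.card (MulAction.orbitRel.Quotient
          (Subgroup.zpowers (σ * Equiv.mk (fun d : G.Dart => d.symm) (fun d : G.Dart => d.symm)
            (fun d => d.symm_symm) (fun d => d.symm_symm))) G.Dart) ≤
      2 * Nat.card G.edgeSet := by
  classical
  have hd : Nat.card G.Dart = 2 * Nat.card G.edgeSet := by
    have : DecidableRel G.Adj := Classical.decRel _
    rw [Nat.card_eq_fintype_card, SimpleGraph.dart_card_eq_twice_card_edges,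
      Nat.card_eq_fintype_card, SimpleGraph.edgeFinset_card]
  rw [← hd]
  refine four_mul_orbits_le _ ?_ (fun d => no_digon G hG hV σ hσ ht d) ?_
  · intro d h
    have h' : σ d.symm = d := h
    have e := hσ d.symm
    rw [h'] at e
    exact d.adj.ne e
  · intro d h
    have h' : σ (σ (σ d.symm).symm).symm = d := h
    have e1 : (σ d.symm).fst = d.snd := hσ d.symm
    have e2 : (σ (σ d.symm).symm).fst = (σ d.symm).snd := hσ _
    have e3 : d.fst = (σ (σ d.symm).symm).snd := by
      have := hσ (σ (σ d.symm).symm).symm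
      rw [h'] at this
      exact this
    have a1 : G.Adj d.fst d.snd := d.adj
    have a2 : G.Adj d.snd (σ d.symm).snd := by
      have := (σ d.symm).adj
      rwa [e1] at this
    have a3 : G.Adj (σ d.symm).snd d.fst := by
      have := (σ (σ d.symm).symm).adj
      rwa [e2, ← e3] at this
    exact htf _ _ _ a1 a2 a3

/-- The triangle-free version: `14 |V| ≤ 5 |E| + 40` is enough. -/
theorem bound_of_edges_tf (hG : G.Connected) (hV : 3 ≤ Nat.card V)
    (htf : ∀ a b c : V, G.Adj a b → G.Adj b c → G.Adj c a → False) (σ : Equiv.Perm G.Dart)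
    (hσ : ∀ d, (σ d).fst = d.fst)
    (ht : ∀ d d' : G.Dart, d.fst = d'.fst → ∃ n : ℕ, (σ ^ n) d = d')
    (hE : 14 * Nat.card V ≤ 5 * Nat.card G.edgeSet + 40)
    (k : ℕ) (hk : 5 * k ≤ Nat.card V + 10) :
    2 * (k : ℤ) ≤ 8 - (Nat.card V : ℤ) + (Nat.card G.edgeSet : ℤ)
      - (Nat.card (MulAction.orbitRel.Quotient
          (Subgroup.zpowers (σ * Equiv.mk (fun d : G.Dart => d.symm) (fun d : G.Dart => d.symm)
            (fun d => d.symm_symm) (fun d => d.symm_symm))) G.Dart) : ℤ) := by
  have h := four_faces_le G hG hV htf σ hσ ht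
  omega

omit [Fintype V] in
/-- The version with the number of vertices: `|V| ≤ 5 g + 5`, `2 g = 2 - |V| + |E| - F`. -/
theorem bound_of_card (σ : Equiv.Perm G.Dart)
    (hn : 2 * (Nat.card V : ℤ) ≤ 5 * (2 - (Nat.card V : ℤ) + (Nat.card G.edgeSet : ℤ)
      - (Nat.card (MulAction.orbitRel.Quotient
          (Subgroup.zpowers (σ * Equiv.mk (fun d : G.Dart => d.symm) (fun d : G.Dart => d.symm)
            (fun d => d.symm_symm) (fun d => d.symm_symm))) G.Dart) : ℤ)) + 10)
    (k : ℕ) (hk : 5 * k ≤ Nat.card V + 10) :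
    2 * (k : ℤ) ≤ 8 - (Nat.card V : ℤ) + (Nat.card G.edgeSet : ℤ)
      - (Nat.card (MulAction.orbitRel.Quotient
          (Subgroup.zpowers (σ * Equiv.mk (fun d : G.Dart => d.symm) (fun d : G.Dart => d.symm)
            (fun d => d.symm_symm) (fun d => d.symm_symm))) G.Dart) : ℤ) := by
  omega

/-- For every `t ≥ 1` and `C`: if `t k ≤ |V| + C`, then `k ≤ g + 3` for all `G` with
`(3 t + 6) |V| + 6 C ≤ t |E| + 12 t`, that is `|E| ≥ (3 + 6 / t) |V| + O(1)`. -/
theorem bound_of_edges_general (hG : G.Connected) (hV : 3 ≤ Nat.card V) (σ : Equiv.Perm G.Dart)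
    (hσ : ∀ d, (σ d).fst = d.fst)
    (ht : ∀ d d' : G.Dart, d.fst = d'.fst → ∃ n : ℕ, (σ ^ n) d = d') (t C : ℕ) (ht0 : 0 < t)
    (hE : (3 * t + 6) * Nat.card V + 6 * C ≤ t * Nat.card G.edgeSet + 24 * t)
    (k : ℕ) (hk : t * k ≤ Nat.card V + C) :
    2 * (k : ℤ) ≤ 8 - (Nat.card V : ℤ) + (Nat.card G.edgeSet : ℤ)
      - (Nat.card (MulAction.orbitRel.Quotient
          (Subgroup.zpowers (σ * Equiv.mk (fun d : G.Dart => d.symm) (fun d : G.Dart => d.symm)
            (fun d => d.symm_symm) (fun d => d.symm_symm))) G.Dart) : ℤ) := by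
  have h := three_faces_le G hG hV σ hσ ht
  generalize Nat.card (MulAction.orbitRel.Quotient
          (Subgroup.zpowers (σ * Equiv.mk (fun d : G.Dart => d.symm) (fun d : G.Dart => d.symm)
            (fun d => d.symm_symm) (fun d => d.symm_symm))) G.Dart) = F at h ⊢
  have h' : (3 * (F : ℤ)) ≤ 2 * (Nat.card G.edgeSet : ℤ) := by exact_mod_cast h
  have hE' : (3 * (t : ℤ) + 6) * (Nat.card V : ℤ) + 6 * C ≤
      t * (Nat.card G.edgeSet : ℤ) + 24 * t := by exact_mod_cast hE
  have hk' : (t : ℤ) * k ≤ (Nat.card V : ℤ) + C := by exact_mod_cast hk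
  have ht1 : (0 : ℤ) < t := by exact_mod_cast ht0
  have h3 : (t : ℤ) * (3 * (F : ℤ)) ≤ t * (2 * (Nat.card G.edgeSet : ℤ)) :=
    mul_le_mul_of_nonneg_left h' ht1.le
  have goal' : (t : ℤ) * (6 * (k : ℤ)) ≤ t * (24 - 3 * (Nat.card V : ℤ) +
      3 * (Nat.card G.edgeSet : ℤ) - 3 * (F : ℤ)) := by nlinarith
  have := le_of_mul_le_mul_left goal' ht1
  linarith

end Pool.Agent.EMP623.Euler
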